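import Mathlib

/-! # Project AZ: weighted averaging over balls (WAVG); pure Mathlib

The proof is an adaptation of `Pool.Agent.N951.AZ.avg`. -/

set_option autoImplicit false
open Metric MeasureTheory Set Filter Topology

namespace Pool.Agent.N490.AZ

lemma vol_ball (x : ℂ) {r : ℝ} (hr : 0 ≤ r) :
    volume (closedBall x r) = ENNReal.ofReal (Real.pi * r ^ 2) := by
  rw [Complex.volume_closedBall, ENNReal.ofReal_mul Real.pi_pos.le, ENNReal.ofReal_pow hr, mul_comm]
  congr 1
  rw [← NNReal.coe_real_pi, ENNReal.ofReal_coe_nnreal]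

/-- weighted averaging over balls of slowly varying radius -/
theorem wavg (S F : Set ℂ) (r a K : ℂ → ℝ) (hS : MeasurableSet S) (hr : Measurable r)
    (hK : Measurable K) (hpos : ∀ x ∈ S, 0 < r x ∧ 0 ≤ a x ∧ 1 ≤ K x)
    (hF : ∀ x ∈ S, ENNReal.ofReal (a x) * volume (closedBall x (r x)) ≤
      volume (F ∩ closedBall x (r x)))
    (hcmp : ∀ x ∈ S, ∀ x' ∈ S, ∀ y, y ∈ closedBall x (r x) → y ∈ closedBall x' (r x') →
      r x' ≤ K x * r x) :
    ∫⁻ x in S, ENNReal.ofReal (a x / K x ^ 2) ≤ volume F := by
  set F' := toMeasurable volume F with hF'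
  have hF'm : MeasurableSet F' := measurableSet_toMeasurable _ _
  have hsub : F ⊆ F' := subset_toMeasurable _ _
  have hvF : volume F' = volume F := measure_toMeasurable _
  set A : Set (ℂ × ℂ) := {p | dist p.2 p.1 ≤ r p.1} with hA
  have hAm : MeasurableSet A := by
    have h1 : Measurable (fun p : ℂ × ℂ => dist p.2 p.1) := by fun_prop
    exact measurableSet_le h1 (hr.comp measurable_fst)
  set f : ℂ → ℂ → ENNReal := fun x y =>
    A.indicator (fun p : ℂ × ℂ => ENNReal.ofReal (1 / (Real.pi * (K p.1 * r p.1) ^ 2))) (x, y)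
    with hf
  have hfm : Measurable (Function.uncurry f) := by
    have h1 : Measurable (fun p : ℂ × ℂ => ENNReal.ofReal (1 / (Real.pi * (K p.1 * r p.1) ^ 2))) := by
      have h2 : Measurable (fun p : ℂ × ℂ => r p.1) := hr.comp measurable_fst
      have h3 : Measurable (fun p : ℂ × ℂ => K p.1) := hK.comp measurable_fst
      fun_prop
    exact h1.indicator hAm
  -- lower bound
  have h1 : ∫⁻ x in S, ENNReal.ofReal (a x / K x ^ 2) ≤ ∫⁻ x in S, ∫⁻ y in F', f x y := by
    refine setLIntegral_mono' hS fun x hx => ?_
    obtain ⟨hrx, hax, hKx⟩ := hpos x hx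
    have e1 : ∫⁻ y in F', f x y =
        volume (F' ∩ closedBall x (r x)) * ENNReal.ofReal (1 / (Real.pi * (K x * r x) ^ 2)) := by
      have e2 : ∀ y, f x y = (closedBall x (r x)).indicator
          (fun _ => ENNReal.ofReal (1 / (Real.pi * (K x * r x) ^ 2))) y := by
        intro y
        by_cases hy : y ∈ closedBall x (r x)
        · rw [indicator_of_mem hy]
          have : (x, y) ∈ A := hy
          simp only [hf]
          rw [indicator_of_mem this]
        · rw [indicator_of_notMem hy]
          have : (x, y) ∉ A := hy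
          simp only [hf]
          rw [indicator_of_notMem this]
      simp_rw [e2]
      rw [lintegral_indicator measurableSet_closedBall, setLIntegral_const,
        Measure.restrict_apply measurableSet_closedBall, inter_comm, mul_comm]
    rw [e1]
    have e3 := hF x hx
    have e4 : volume (F ∩ closedBall x (r x)) ≤ volume (F' ∩ closedBall x (r x)) :=
      measure_mono (inter_subset_inter_left _ hsub)
    rw [vol_ball x hrx.le] at e3
    have hp : 0 < Real.pi * r x ^ 2 := by positivity
    have hK0 : 0 < K x := by linarith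
    calc ENNReal.ofReal (a x / K x ^ 2) = ENNReal.ofReal (a x) * ENNReal.ofReal (Real.pi * r x ^ 2) *
          ENNReal.ofReal (1 / (Real.pi * (K x * r x) ^ 2)) := by
          rw [mul_assoc, ← ENNReal.ofReal_mul hp.le, ← ENNReal.ofReal_mul hax]
          congr 1
          field_simp
      _ ≤ _ := by
          gcongr
          exact e3.trans e4
  -- swap
  have h2 : ∫⁻ x in S, ∫⁻ y in F', f x y = ∫⁻ y in F', ∫⁻ x in S, f x y :=
    lintegral_lintegral_swap hfm.aemeasurable
  -- upper bound
  have h3 : ∫⁻ y in F', ∫⁻ x in S, f x y ≤ ∫⁻ _ in F', 1 := by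
    refine lintegral_mono fun y => ?_
    set Sy : Set ℂ := {x | x ∈ S ∧ y ∈ closedBall x (r x)} with hSy
    by_cases hemp : Sy = ∅
    · have e1 : ∫⁻ x in S, f x y ≤ ∫⁻ _ in S, 0 := by
        refine setLIntegral_mono' hS fun x hx => ?_
        have : (x, y) ∉ A := by
          intro h0
          have : x ∈ Sy := ⟨hx, h0⟩
          rw [hemp] at this
          exact this
        simp only [hf]
        rw [indicator_of_notMem this]
      rw [lintegral_zero] at e1
      exact e1.trans zero_le
    · obtain ⟨x1, hx1⟩ := nonempty_iff_ne_empty.2 hemp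
      have hbdd : BddAbove (r '' Sy) := by
        refine ⟨K x1 * r x1, ?_⟩
        rintro _ ⟨x, hx, rfl⟩
        exact hcmp x1 hx1.1 x hx.1 y hx1.2 hx.2
      set r0 := sSup (r '' Sy) with hr0
      have g1 : ∀ x ∈ Sy, r x ≤ r0 := fun x hx => le_csSup hbdd ⟨x, hx, rfl⟩
      have g2 : ∀ x ∈ Sy, r0 ≤ K x * r x := by
        intro x hx
        refine csSup_le ⟨_, ⟨x1, hx1, rfl⟩⟩ ?_
        rintro _ ⟨x', hx', rfl⟩
        exact hcmp x hx.1 x' hx'.1 y hx.2 hx'.2
      have g3 : 0 < r0 := (hpos x1 hx1.1).1.trans_le (g1 x1 hx1)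
      have e1 : ∫⁻ x in S, f x y ≤ ∫⁻ x in S, (closedBall y r0).indicator
          (fun _ => ENNReal.ofReal (1 / (Real.pi * r0 ^ 2))) x := by
        refine setLIntegral_mono' hS fun x hx => ?_
        by_cases hxy : (x, y) ∈ A
        · have hxS : x ∈ Sy := ⟨hx, hxy⟩
          have hxb : x ∈ closedBall y r0 := by
            have : dist y x ≤ r x := hxy
            rw [mem_closedBall, dist_comm]
            exact this.trans (g1 x hxS)
          simp only [hf]
          rw [indicator_of_mem hxy, indicator_of_mem hxb]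
          apply ENNReal.ofReal_le_ofReal
          have g4 := g2 x hxS
          have g5 : r0 ^ 2 ≤ (K x * r x) ^ 2 := pow_le_pow_left₀ g3.le g4 2
          apply one_div_le_one_div_of_le (by positivity)
          exact mul_le_mul_of_nonneg_left g5 Real.pi_pos.le
        · simp only [hf]
          rw [indicator_of_notMem hxy]
          exact zero_le
      refine e1.trans ((setLIntegral_le_lintegral _ _).trans ?_)
      rw [lintegral_indicator measurableSet_closedBall, setLIntegral_const, vol_ball y g3.le,
        ← ENNReal.ofReal_mul (by positivity)]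
      apply le_of_eq
      have : Real.pi * r0 ^ 2 ≠ 0 := by positivity
      rw [one_div_mul_cancel this, ENNReal.ofReal_one]
  rw [setLIntegral_const, hvF, one_mul] at h3
  exact h1.trans (h2.le.trans h3)

end Pool.Agent.N490.AZ
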