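import Pool.Agent.N228.AZ.Stm3
import Pool.Agent.N490.AZ.WavgPure

/-! # Project AZ: WAVG -/

set_option autoImplicit false

namespace Pool.Agent.N490.AZ.Wavg

/-- WAVG -/
theorem main : Pool.Agent.N228.AZ.P_WAVG :=
  fun S F r a K hS hr _ hK hpos hF hcmp =>
    Pool.Agent.N490.AZ.wavg S F r a K hS hr hK hpos hF hcmp

end Pool.Agent.N490.AZ.Wavg
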